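import Pool.Agent.LibKC.GAux

/-! THEOREM K, part C, block CAN (helper80): bases of differentials, volume forms. -/

set_option autoImplicit false

open scoped KaehlerDifferential
open Pool.Agent.LibGMM Pool.Agent.LibK

namespace Pool.Agent.LibKC

section Basis

variable {E : Type} [Field E] [Algebra ℂ E] {ι : Type} [Fintype ι]

/-- The differentials of a purely transcendental extension. -/
theorem can_basis (y : ι → E) (hy : AlgebraicIndependent ℂ y)
    (hgen : IntermediateField.adjoin ℂ (Set.range y) = ⊤) :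
    ∃ b : Module.Basis ι E (Ω[E⁄ℂ]), ∀ i, b i = KaehlerDifferential.D ℂ E (y i) := by
  classical
  letI : Algebra (MvPolynomial ι ℂ) E := (MvPolynomial.aeval y).toAlgebra
  have hmap : ∀ p, algebraMap (MvPolynomial ι ℂ) E p = MvPolynomial.aeval y p := fun p => rfl
  haveI : IsScalarTower ℂ (MvPolynomial ι ℂ) E := IsScalarTower.of_algebraMap_eq fun c => by
    rw [hmap, MvPolynomial.algebraMap_eq, MvPolynomial.aeval_C]
  have hinj : Function.Injective (algebraMap (MvPolynomial ι ℂ) E) := hy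
  haveI : FaithfulSMul (MvPolynomial ι ℂ) E := (faithfulSMul_iff_algebraMap_injective _ _).2 hinj
  haveI : IsFractionRing (MvPolynomial ι ℂ) E := by
    refine IsFractionRing.of_field _ _ fun z => ?_
    have hz : z ∈ IntermediateField.adjoin ℂ (Set.range y) := by rw [hgen]; trivial
    rw [IntermediateField.mem_adjoin_iff_div] at hz
    obtain ⟨a, ha, b, hb, rfl⟩ := hz
    rw [Algebra.adjoin_range_eq_range_aeval] at ha hb
    obtain ⟨p, rfl⟩ := ha
    obtain ⟨q, rfl⟩ := hb
    exact ⟨p, q, rfl⟩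
  haveI : Algebra.FormallyEtale (MvPolynomial ι ℂ) E :=
    Algebra.FormallyEtale.of_isLocalization (Rₘ := E) (nonZeroDivisors (MvPolynomial ι ℂ))
  refine ⟨((KaehlerDifferential.mvPolynomialBasis ℂ ι).baseChange E).map
    (KaehlerDifferential.tensorKaehlerEquivOfFormallyEtale ℂ (MvPolynomial ι ℂ) E), fun i => ?_⟩
  rw [Module.Basis.map_apply, Module.Basis.baseChange_apply, KaehlerDifferential.mvPolynomialBasis_apply,
    KaehlerDifferential.tensorKaehlerEquivOfFormallyEtale_apply,
    KaehlerDifferential.mapBaseChange_tmul, one_smul, KaehlerDifferential.map_D, hmap,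
    MvPolynomial.aeval_X]

/-- The dual derivations. -/
theorem can_dual [DecidableEq ι] (y : ι → E) (b : Module.Basis ι E (Ω[E⁄ℂ]))
    (hb : ∀ i, b i = KaehlerDifferential.D ℂ E (y i)) :
    ∃ d : ι → Derivation ℂ E E, ∀ i j, d i (y j) = if i = j then 1 else 0 := by
  refine ⟨fun i => KaehlerDifferential.linearMapEquivDerivation ℂ E (b.coord i), fun i j => ?_⟩
  change b.coord i (KaehlerDifferential.D ℂ E (y j)) = _
  rw [← hb, Module.Basis.coord_apply, Module.Basis.repr_self, Finsupp.single_apply]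
  by_cases h : i = j
  · subst h; simp
  · rw [if_neg (fun h' => h h'.symm), if_neg h]

theorem can_finite (y : ι → E) (hy : AlgebraicIndependent ℂ y)
    (hgen : IntermediateField.adjoin ℂ (Set.range y) = ⊤) : Module.Finite E (Ω[E⁄ℂ]) := by
  obtain ⟨b, _⟩ := can_basis y hy hgen
  exact Module.Finite.of_basis b

theorem can_dimK (y : ι → E) (hy : AlgebraicIndependent ℂ y)
    (hgen : IntermediateField.adjoin ℂ (Set.range y) = ⊤) : dimK E = Fintype.card ι := by
  obtain ⟨b, _⟩ := can_basis y hy hgen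
  exact Module.finrank_eq_card_basis b

/-- The form `g dy₁ ∧ … ∧ dyₙ`. -/
theorem can_exists_vol (g : E) (y : ι → E) (hn : dimK E = Fintype.card ι) :
    ∃ ω : TopForm E, IsVol ω g y := by
  classical
  have e : Fin (dimK E) ≃ ι := (finCongr hn).trans (Fintype.equivFin ι).symm
  let f : Derivation ℂ E E →ₗ[E] (Fin (dimK E) → E) :=
    { toFun := fun D j => D (y (e j))
      map_add' := fun D D' => rfl
      map_smul' := fun c D => rfl }
  refine ⟨g • (Matrix.detRowAlternating.compLinearMap f), e, fun D => ?_⟩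
  rfl

theorem can_vol_ne_zero {g : E} (hg : g ≠ 0) {y : ι → E} (hy : AlgebraicIndependent ℂ y)
    (hgen : IntermediateField.adjoin ℂ (Set.range y) = ⊤) {ω : TopForm E} (h : IsVol ω g y) :
    ω ≠ 0 := by
  classical
  obtain ⟨b, hb⟩ := can_basis y hy hgen
  obtain ⟨d, hd⟩ := can_dual y b hb
  obtain ⟨σ, hσ⟩ := h
  intro h0
  have h1 := hσ fun i => d (σ i)
  rw [h0] at h1
  have h2 : (Matrix.det fun i j => d (σ i) (y (σ j))) = (1 : E) := by
    have h3 : (Matrix.of fun i j => d (σ i) (y (σ j)) : Matrix (Fin (dimK E)) (Fin (dimK E)) E)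
        = 1 := by
      ext i j
      rw [Matrix.of_apply, hd, Matrix.one_apply]
      simp
    exact (congrArg Matrix.det h3).trans Matrix.det_one
  rw [h2, mul_one] at h1
  exact hg h1.symm

end Basis

section Vol

variable {E : Type} [Field E] [Algebra ℂ E] {ι ι' : Type}

theorem IsVol.reindex {ω : TopForm E} {g : E} {y : ι → E} (h : IsVol ω g y) (ε : ι' ≃ ι) :
    IsVol ω g (fun i => y (ε i)) := by
  obtain ⟨σ, hσ⟩ := h
  refine ⟨σ.trans ε.symm, fun D => ?_⟩
  rw [hσ]
  simp

theorem IsVol.change [Fintype ι] [DecidableEq ι] {ω : TopForm E} {g : E} {y x : ι → E}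
    (h : IsVol ω g y) (J : Matrix ι ι E)
    (hJ : ∀ i, KaehlerDifferential.D ℂ E (y i) = ∑ j, J i j • KaehlerDifferential.D ℂ E (x j)) :
    IsVol ω (g * J.det) x := by
  obtain ⟨σ, hσ⟩ := h
  refine ⟨σ, fun D => ?_⟩
  rw [hσ, mul_assoc]
  congr 1
  have h1 : (Matrix.of fun i j => D i (y (σ j)) : Matrix (Fin (dimK E)) (Fin (dimK E)) E) =
      (Matrix.of fun i j => D i (x (σ j)) : Matrix (Fin (dimK E)) (Fin (dimK E)) E) *
        (J.submatrix σ σ).transpose := by
    ext i j
    rw [Matrix.mul_apply, Matrix.of_apply]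
    have h2 := congrArg (D i).liftKaehlerDifferential (hJ (σ j))
    rw [Derivation.liftKaehlerDifferential_comp_D, map_sum] at h2
    rw [h2, ← Equiv.sum_comp σ]
    refine Finset.sum_congr rfl fun k _ => ?_
    rw [map_smul, Derivation.liftKaehlerDifferential_comp_D, smul_eq_mul, mul_comm]
    rfl
  have h3 := congrArg Matrix.det h1
  rw [Matrix.det_mul, Matrix.det_transpose, Matrix.det_submatrix_equiv_self] at h3
  exact h3.trans (mul_comm _ _)

theorem IsVol.ne_zero {ω : TopForm E} {g : E} {y : ι → E} (h : IsVol ω g y) (hω : ω ≠ 0) :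
    g ≠ 0 := by
  rintro rfl
  obtain ⟨σ, hσ⟩ := h
  apply hω
  ext D
  rw [hσ, zero_mul]
  rfl

/-- The order of a form `g dx₁ ∧ … ∧ dxₙ` if the `dxᵢ` span the lattice of differentials. -/
theorem can_ord_of_vol [Fintype ι] {ω : TopForm E} {g : E} {x : ι → E} (h : IsVol ω g x)
    (hω : ω ≠ 0) (O : DVal E) (hx : ∀ i, 0 ≤ O.ord (x i))
    (hspan : ∀ z, 0 ≤ O.ord z → KaehlerDifferential.D ℂ E z ∈
      Submodule.span O.ring (Set.range fun i => KaehlerDifferential.D ℂ E (x i))) :
    canOrd O ω = O.ord g := by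
  classical
  have hg := h.ne_zero hω
  obtain ⟨σ, hσ⟩ := h
  unfold canOrd
  apply IsGreatest.csSup_eq
  constructor
  · exact ⟨g, fun j => x (σ j), hg, rfl, fun i => hx _, hσ⟩
  · rintro k ⟨t, z, ht, rfl, hz, hD⟩
    obtain ⟨D, hD0⟩ : ∃ D, ω D ≠ 0 := by
      by_contra hcon
      push Not at hcon
      exact hω (AlternatingMap.ext hcon)
    have h1 : ∀ i, ∃ c : ι → O.ring, ∑ j, c j • KaehlerDifferential.D ℂ E (x j) =
        KaehlerDifferential.D ℂ E (z i) := fun i =>
      (Submodule.mem_span_range_iff_exists_fun O.ring).1 (hspan _ (hz i))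
    choose A hA using h1
    have h2 : (Matrix.of fun i j => D i (z j) : Matrix (Fin (dimK E)) (Fin (dimK E)) E) =
        (Matrix.of fun i j => D i (x (σ j)) : Matrix (Fin (dimK E)) (Fin (dimK E)) E) *
          (Matrix.of fun i j => (A i (σ j) : E)).transpose := by
      ext i j
      rw [Matrix.mul_apply, Matrix.of_apply]
      have h3 := congrArg (D i).liftKaehlerDifferential (hA j)
      rw [Derivation.liftKaehlerDifferential_comp_D, map_sum] at h3
      rw [← h3, ← Equiv.sum_comp σ]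
      refine Finset.sum_congr rfl fun k _ => ?_
      have h4 : (A j (σ k)) • KaehlerDifferential.D ℂ E (x (σ k)) =
        (A j (σ k) : E) • KaehlerDifferential.D ℂ E (x (σ k)) := rfl
      rw [h4, map_smul, Derivation.liftKaehlerDifferential_comp_D, smul_eq_mul, mul_comm]
      rfl
    set r : O.ring := Matrix.det (Matrix.of fun i j => A i (σ j)) with hr
    have h5 : (r : E) = (Matrix.of fun i j => (A i (σ j) : E)).det := by
      rw [hr]
      exact RingHom.map_det (O.ring.val : O.ring →+* E) (Matrix.of fun i j => A i (σ j))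
    have h2' := congrArg Matrix.det h2
    rw [Matrix.det_mul, Matrix.det_transpose, ← h5] at h2'
    have h6 : ω D = t * (Matrix.det (Matrix.of fun i j => D i (x (σ j))) * (r : E)) := by
      rw [← h2']
      exact hD D
    have h7 := hσ D
    have h8 : (Matrix.det fun i j => D i (x (σ j))) ≠ 0 := by
      intro h9
      rw [h7, h9, mul_zero] at hD0
      exact hD0 rfl
    have h9 : g = t * r := by
      have h10 : g * (Matrix.det fun i j => D i (x (σ j))) =
          (t * r) * (Matrix.det fun i j => D i (x (σ j))) := by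
        rw [← h7, h6, mul_assoc, mul_comm (r : E)]
        rfl
      exact mul_right_cancel₀ h8 h10
    have hr0 : (r : E) ≠ 0 := by
      intro h10
      rw [h10, mul_zero] at h9
      exact hg h9
    rw [h9, O.ord_mul _ _ ht hr0]
    have h11 : 0 ≤ O.ord r := r.2
    omega

end Vol

section Smul

variable {E : Type} [Field E] [Algebra ℂ E]

theorem can_exists_smul (hfin : Module.Finite E (Ω[E⁄ℂ])) {ω ω' : TopForm E} (h : ω ≠ 0)
    (h' : ω' ≠ 0) : ∃ c : Eˣ, ω' = (c : E) • ω := by
  classical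
  let b : Module.Basis (Fin (Module.finrank E (Ω[E⁄ℂ]))) E (Ω[E⁄ℂ]) := Module.finBasis E (Ω[E⁄ℂ])
  let e : Module.Basis (Fin (Module.finrank E (Ω[E⁄ℂ]))) E (Derivation ℂ E E) :=
    b.dualBasis.map (KaehlerDifferential.linearMapEquivDerivation ℂ E)
  let ω₁ : (Derivation ℂ E E) [⋀^Fin (Module.finrank E (Ω[E⁄ℂ]))]→ₗ[E] E := ω
  let ω₂ : (Derivation ℂ E E) [⋀^Fin (Module.finrank E (Ω[E⁄ℂ]))]→ₗ[E] E := ω'
  have h1 : ω₁ = ω₁ e • e.det := AlternatingMap.eq_smul_basis_det e ω₁
  have h2 : ω₂ = ω₂ e • e.det := AlternatingMap.eq_smul_basis_det e ω₂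
  have hc1 : ω₁ e ≠ 0 := by
    intro h3
    rw [h3, zero_smul] at h1
    exact h h1
  have hc2 : ω₂ e ≠ 0 := by
    intro h3
    rw [h3, zero_smul] at h2
    exact h' h2
  refine ⟨Units.mk0 (ω₂ e / ω₁ e) (div_ne_zero hc2 hc1), ?_⟩
  change ω₂ = (ω₂ e / ω₁ e) • ω₁
  conv_lhs => rw [h2]
  conv_rhs => rw [h1]
  rw [smul_smul]
  congr 1
  have h4 : ((ω₁ e • e.det) : (Derivation ℂ E E) [⋀^Fin (Module.finrank E (Ω[E⁄ℂ]))]→ₗ[E] E) e
      = ω₁ e := by
    rw [← h1]
  rw [h4, div_mul_cancel₀ _ hc1]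

end Smul

end Pool.Agent.LibKC
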