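import Pool.Agent.LibKC.CANa

/-! THEOREM K, part C, block CAN (helper80): residual independence and the lattice of
differentials of a divisorial valuation. -/

set_option autoImplicit false

open scoped KaehlerDifferential
open Pool.Agent.LibGMM Pool.Agent.LibK

namespace Pool.Agent.LibKC

variable {E : Type} [Field E] [Algebra ℂ E]

/-- The residues of the family `b` are algebraically independent. -/
def ResIndep (O : DVal E) {ι : Type} (b : ι → E) : Prop :=
  ∀ P : MvPolynomial ι ℂ, P ≠ 0 → MvPolynomial.aeval b P ≠ 0 ∧ O.ord (MvPolynomial.aeval b P) = 0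

section

variable {O : DVal E} {ι ι' : Type} {b : ι → E}

theorem ResIndep.nonneg (h : ResIndep O b) (i : ι) : 0 ≤ O.ord (b i) := by
  have h1 := (h (MvPolynomial.X i) (MvPolynomial.X_ne_zero i)).2
  rw [MvPolynomial.aeval_X] at h1
  exact h1.ge

theorem can_aeval_nonneg {c : ι → E} (hc : ∀ i, 0 ≤ O.ord (c i)) (P : MvPolynomial ι ℂ) :
    0 ≤ O.ord (MvPolynomial.aeval c P) := by
  have h1 : MvPolynomial.aeval c P = ((MvPolynomial.aeval (fun i => (⟨c i, hc i⟩ : O.ring)) P :
      O.ring) : E) := by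
    have h2 : (MvPolynomial.aeval c : MvPolynomial ι ℂ →ₐ[ℂ] E) =
        O.ring.val.comp (MvPolynomial.aeval fun i => (⟨c i, hc i⟩ : O.ring)) := by
      apply MvPolynomial.algHom_ext
      intro i; simp
    rw [h2]; rfl
  rw [h1]
  exact (MvPolynomial.aeval (fun i => (⟨c i, hc i⟩ : O.ring)) P : O.ring).2

theorem ResIndep.reindex (h : ResIndep O b) (ε : ι' ≃ ι) : ResIndep O fun i => b (ε i) := by
  intro P hP
  have h1 : MvPolynomial.aeval (fun i => b (ε i)) P =
      MvPolynomial.aeval b (MvPolynomial.rename ε P) := by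
    rw [MvPolynomial.aeval_rename]; rfl
  rw [h1]
  exact h _ fun h2 => hP (MvPolynomial.rename_injective _ ε.injective (by rw [h2, map_zero]))

theorem ResIndep.algebraicIndependent (h : ResIndep O b) (t : E) (ht : O.ord t = 1) :
    AlgebraicIndependent ℂ fun o : Option ι => o.elim t b := by
  obtain ⟨κ, _, _, ρ, hsurj, hρ⟩ := O.exists_residue
  have h1 := algebraicIndependent_residue O ρ hρ t ht (fun i => (⟨b i, h.nonneg i⟩ : O.ring)) ?_
  · exact h1
  · rw [algebraicIndependent_iff]
    intro P hP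
    by_contra hP0
    have h2 : ρ (MvPolynomial.aeval (fun i => (⟨b i, h.nonneg i⟩ : O.ring)) P) = 0 := by
      have h3 : (MvPolynomial.aeval (fun i => ρ ⟨b i, h.nonneg i⟩) : MvPolynomial ι ℂ →ₐ[ℂ] κ) =
          ρ.comp (MvPolynomial.aeval fun i => (⟨b i, h.nonneg i⟩ : O.ring)) := by
        apply MvPolynomial.algHom_ext
        intro i; simp
      rw [h3] at hP
      exact hP
    rw [hρ] at h2
    have h4 : ((MvPolynomial.aeval (fun i => (⟨b i, h.nonneg i⟩ : O.ring)) P : O.ring) : E) =
        MvPolynomial.aeval b P := by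
      have h2 : (MvPolynomial.aeval b : MvPolynomial ι ℂ →ₐ[ℂ] E) =
          O.ring.val.comp (MvPolynomial.aeval fun i => (⟨b i, h.nonneg i⟩ : O.ring)) := by
        apply MvPolynomial.algHom_ext
        intro i; simp
      rw [h2]; rfl
    rw [h4] at h2
    obtain ⟨h5, h6⟩ := h P hP0
    rcases h2 with h2 | h2
    · exact h5 h2
    · rw [h6] at h2; exact lt_irrefl _ h2

end

/-- An algebraically independent generating family is a transcendence basis. -/
theorem can_trdeg {κ : Type} [Fintype κ] (y : κ → E) (hy : AlgebraicIndependent ℂ y)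
    (hgen : IntermediateField.adjoin ℂ (Set.range y) = ⊤) :
    Algebra.trdeg ℂ E = Fintype.card κ := by
  have halg : Algebra.IsAlgebraic (Algebra.adjoin ℂ (Set.range y)) E := by
    refine ⟨fun z => ?_⟩
    have hz : z ∈ IntermediateField.adjoin ℂ (Set.range y) := by rw [hgen]; trivial
    rw [IntermediateField.mem_adjoin_iff_div] at hz
    obtain ⟨a, ha, b, hb, hz⟩ := hz
    by_cases hb0 : b = 0
    · rw [hb0, div_zero] at hz
      rw [hz]
      exact isAlgebraic_zero
    refine ⟨Polynomial.C ⟨b, hb⟩ * Polynomial.X - Polynomial.C ⟨a, ha⟩, ?_, ?_⟩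
    · intro h
      have h1 := congrArg (fun p => Polynomial.coeff p 1) h
      simp only [Polynomial.coeff_sub, Polynomial.coeff_C_mul, Polynomial.coeff_X_one, mul_one,
        Polynomial.coeff_C_succ, sub_zero, Polynomial.coeff_zero] at h1
      exact hb0 (congrArg Subtype.val h1)
    · rw [map_sub, map_mul, Polynomial.aeval_C, Polynomial.aeval_C, Polynomial.aeval_X]
      change b * z - a = 0
      rw [hz]; field_simp; ring
  have h1 : IsTranscendenceBasis ℂ y := hy.isTranscendenceBasis_iff_isAlgebraic.2 halg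
  rw [← h1.cardinalMk_eq_trdeg, Cardinal.mk_fintype]

theorem ResIndep.card_lt {O : DVal E} {ι : Type} [Fintype ι] {b : ι → E} (h : ResIndep O b)
    {κ : Type} [Fintype κ] (y : κ → E) (hy : AlgebraicIndependent ℂ y)
    (hgen : IntermediateField.adjoin ℂ (Set.range y) = ⊤) :
    Fintype.card ι + 1 ≤ Fintype.card κ := by
  obtain ⟨t, ht⟩ := O.exists_ord_one
  have h1 := (h.algebraicIndependent t ht).cardinalMk_le_trdeg
  rw [can_trdeg y hy hgen, Cardinal.mk_fintype, Fintype.card_option] at h1
  exact_mod_cast h1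

theorem can_smul_mem {O : DVal E} {V : Type} [AddCommGroup V] [Module E V]
    (N : Submodule O.ring V) {c : E} (hc : 0 ≤ O.ord c) {z : V} (hz : z ∈ N) : c • z ∈ N :=
  N.smul_mem (⟨c, hc⟩ : O.ring) hz

theorem can_mem_jacobson (O : DVal E) (t : O.ring) (ht : O.ord (t : E) = 1) :
    t ∈ Ideal.jacobson (⊥ : Ideal O.ring) := by
  have ht0 : (t : E) ≠ 0 := by intro h; rw [h] at ht; simp at ht
  rw [Ideal.mem_jacobson_bot]
  intro y
  have h1 : ((t : E) * (y : E) + 1) ≠ 0 ∧ O.ord ((t : E) * (y : E) + 1) = 0 := by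
    have h2 := O.ord_add_eq (a := 1) (b := (t : E) * (y : E)) one_ne_zero (by
      by_cases hy : (y : E) = 0
      · left; rw [hy, mul_zero]
      · right
        rw [O.ord_mul _ _ ht0 hy, ht, O.ord_one]
        have : 0 ≤ O.ord y := y.2
        omega)
    rw [add_comm]
    exact ⟨h2.2, by rw [h2.1, O.ord_one]⟩
  have h3 : ((t : E) * (y : E) + 1)⁻¹ ∈ O.ring := by
    change 0 ≤ O.ord _
    rw [O.ord_inv, h1.2]; simp
  refine isUnit_iff_exists_inv.2 ⟨⟨_, h3⟩, Subtype.ext ?_⟩
  change ((t : E) * (y : E) + 1) * ((t : E) * (y : E) + 1)⁻¹ = 1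
  exact mul_inv_cancel₀ h1.1

theorem can_nakayama (O : DVal E) (t : O.ring) (ht : O.ord (t : E) = 1) {V : Type}
    [AddCommGroup V] [Module O.ring V] (N' : Submodule O.ring V) (S : Set V)
    (hFG : (Submodule.span O.ring S).FG)
    (h : ∀ w ∈ S, ∃ u ∈ N', ∃ v ∈ Submodule.span O.ring S, w = u + t • v) :
    Submodule.span O.ring S ≤ N' := by
  have hm : Ideal.span {t} ≤ Ideal.jacobson (⊥ : Ideal O.ring) := by
    rw [Ideal.span_le, Set.singleton_subset_iff]
    exact can_mem_jacobson O t ht
  refine Submodule.le_of_le_smul_of_le_jacobson_bot hFG hm ?_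
  rw [Submodule.span_le]
  intro w hw
  obtain ⟨u, hu, v, hv, h1⟩ := h w hw
  rw [h1]
  exact Submodule.add_mem _ (Submodule.mem_sup_left hu)
    (Submodule.mem_sup_right (Submodule.smul_mem_smul (Ideal.subset_span rfl) hv))

/-- The lattice of differentials. -/
def diffs (O : DVal E) : Set (Ω[E⁄ℂ]) := {w | ∃ z, 0 ≤ O.ord z ∧ w = KaehlerDifferential.D ℂ E z}

theorem can_fg (O : DVal E) (hO : O.Divisorial) : (Submodule.span O.ring (diffs O)).FG := by
  classical
  obtain ⟨A, hA, hA0, hfrac⟩ := hO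
  obtain ⟨s, hs⟩ := hA
  have hsO : ∀ a ∈ s, 0 ≤ O.ord a := fun a ha => hA0 a (by
    rw [← hs]; exact Algebra.subset_adjoin ha)
  refine ⟨s.image fun a => KaehlerDifferential.D ℂ E a, ?_⟩
  apply le_antisymm
  · rw [Submodule.span_le]
    intro w hw
    rw [Finset.coe_image] at hw
    obtain ⟨a, ha, rfl⟩ := hw
    exact Submodule.subset_span ⟨a, hsO a ha, rfl⟩
  · rw [Submodule.span_le]
    rintro _ ⟨x, hx, rfl⟩
    have hAm : ∀ a ∈ A, KaehlerDifferential.D ℂ E a ∈
        Submodule.span O.ring (↑(s.image fun a => KaehlerDifferential.D ℂ E a) : Set _) := by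
      intro a ha
      have ha' : a ∈ Algebra.adjoin ℂ (s : Set E) := by rw [hs]; exact ha
      clear ha
      induction ha' using Algebra.adjoin_induction with
      | mem x hx =>
        exact Submodule.subset_span (by
          rw [Finset.coe_image]; exact ⟨x, hx, rfl⟩)
      | algebraMap r => rw [Derivation.map_algebraMap]; exact Submodule.zero_mem _
      | add x y hx hy h1 h2 =>
        rw [map_add]
        exact Submodule.add_mem _ h1 h2
      | mul x y hx hy h1 h2 =>
        rw [hs] at hx hy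
        rw [Derivation.leibniz]
        exact Submodule.add_mem _ (can_smul_mem _ (hA0 x hx) h2)
          (can_smul_mem _ (hA0 y hy) h1)
    obtain ⟨a, ha, c, hc, hc0, hc1, rfl⟩ := hfrac x hx
    have hci : 0 ≤ O.ord c⁻¹ := by rw [O.ord_inv, hc1]; simp
    have hci2 : 0 ≤ O.ord (-c⁻¹ ^ 2) := by
      rw [O.ord_neg, O.ord_pow]
      exact mul_nonneg (by norm_num) hci
    change KaehlerDifferential.D ℂ E (a / c) ∈ _
    rw [div_eq_mul_inv, Derivation.leibniz, Derivation.leibniz_inv]
    exact Submodule.add_mem _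
      (can_smul_mem _ (hA0 a ha) (can_smul_mem _ hci2 (hAm c hc)))
      (can_smul_mem _ hci (hAm a ha))

section

variable {O : DVal E} {ι : Type} [Fintype ι] {b : ι → E}

/-- Evaluation of polynomials in `x` with coefficients in `ℂ[b]`. -/
noncomputable def evp (b : ι → E) (x : E) : Polynomial (MvPolynomial ι ℂ) →ₐ[ℂ] E :=
  Polynomial.aevalTower (MvPolynomial.aeval b) x

theorem evp_option (x : E) (P : MvPolynomial (Option ι) ℂ) :
    MvPolynomial.aeval (fun o : Option ι => o.elim x b) P =
      evp b x (MvPolynomial.optionEquivLeft ℂ ι P) := by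
  have h1 : (MvPolynomial.aeval (fun o : Option ι => o.elim x b) :
      MvPolynomial (Option ι) ℂ →ₐ[ℂ] E) =
      (evp b x).comp (MvPolynomial.optionEquivLeft ℂ ι).toAlgHom := by
    apply MvPolynomial.algHom_ext
    rintro (_ | i)
    · simp [evp]
    · simp [evp]
  rw [h1]; rfl

theorem evp_C_mul (x : E) (c : MvPolynomial ι ℂ) (n : ℕ) :
    evp b x (Polynomial.C c * Polynomial.X ^ n) = MvPolynomial.aeval b c * x ^ n := by
  rw [map_mul, map_pow]
  simp [evp]

theorem evp_nonneg (hb : ResIndep O b) {x : E} (hx : 0 ≤ O.ord x)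
    (p : Polynomial (MvPolynomial ι ℂ)) : 0 ≤ O.ord (evp b x p) := by
  obtain ⟨P, rfl⟩ := (MvPolynomial.optionEquivLeft ℂ ι).surjective p
  rw [← evp_option]
  apply can_aeval_nonneg
  rintro (_ | i)
  · exact hx
  · exact hb.nonneg i

theorem evp_D (hb : ResIndep O b) {x : E} (hx : 0 ≤ O.ord x) (N' : Submodule O.ring (Ω[E⁄ℂ]))
    (hDb : ∀ i, KaehlerDifferential.D ℂ E (b i) ∈ N') (p : Polynomial (MvPolynomial ι ℂ)) :
    KaehlerDifferential.D ℂ E (evp b x p) -
      evp b x (Polynomial.derivative p) • KaehlerDifferential.D ℂ E x ∈ N' := by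
  have hDpoly : ∀ c : MvPolynomial ι ℂ,
      KaehlerDifferential.D ℂ E (MvPolynomial.aeval b c) ∈ N' := by
    intro c
    rw [derivation_aeval (KaehlerDifferential.D ℂ E) b c]
    exact Submodule.sum_mem _ fun v _ =>
      can_smul_mem _ (can_aeval_nonneg hb.nonneg _) (hDb v)
  induction p using Polynomial.induction_on' with
  | add p q hp hq =>
    have h1 := Submodule.add_mem _ hp hq
    rw [map_add, map_add, map_add, map_add, add_smul]
    convert h1 using 1
    abel
  | monomial n c =>
    rw [← Polynomial.C_mul_X_pow_eq_monomial, Polynomial.derivative_C_mul_X_pow]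
    rw [evp_C_mul, evp_C_mul, Derivation.leibniz, Derivation.leibniz_pow, map_mul, map_natCast]
    have h2 : MvPolynomial.aeval b c • (n • x ^ (n - 1) • KaehlerDifferential.D ℂ E x) +
        x ^ n • KaehlerDifferential.D ℂ E (MvPolynomial.aeval b c) -
        (MvPolynomial.aeval b c * (n : E) * x ^ (n - 1)) • KaehlerDifferential.D ℂ E x =
        x ^ n • KaehlerDifferential.D ℂ E (MvPolynomial.aeval b c) := by
      rw [← Nat.cast_smul_eq_nsmul E, smul_smul, smul_smul, mul_assoc]
      abel
    rw [h2]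
    exact can_smul_mem _ (by rw [O.ord_pow]; positivity) (hDpoly c)

/-- A polynomial with vanishing residue at `x`, whose derivative has nonzero residue. -/
theorem exists_evp (hb : ResIndep O b) {x : E} (hx : 0 ≤ O.ord x)
    (hmax : ¬ ResIndep O fun o : Option ι => o.elim x b) :
    ∃ p, (evp b x p = 0 ∨ 0 < O.ord (evp b x p)) ∧ evp b x (Polynomial.derivative p) ≠ 0 ∧
      O.ord (evp b x (Polynomial.derivative p)) = 0 := by
  classical
  have hex : ∃ n, ∃ p : Polynomial (MvPolynomial ι ℂ), p ≠ 0 ∧ p.natDegree = n ∧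
      (evp b x p = 0 ∨ 0 < O.ord (evp b x p)) := by
    have h1 := hmax
    unfold ResIndep at h1
    push Not at h1
    obtain ⟨P, hP0, hP⟩ := h1
    refine ⟨_, MvPolynomial.optionEquivLeft ℂ ι P, ?_, rfl, ?_⟩
    · intro h
      exact hP0 ((MvPolynomial.optionEquivLeft ℂ ι).injective (by rw [h, map_zero]))
    · rw [evp_option] at hP
      by_cases h0 : evp b x (MvPolynomial.optionEquivLeft ℂ ι P) = 0
      · exact Or.inl h0
      · right
        have h2 := hP h0
        have h3 := evp_nonneg hb hx (MvPolynomial.optionEquivLeft ℂ ι P)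
        omega
  obtain ⟨p, hp0, hpn, hp⟩ := Nat.find_spec hex
  have hmin := fun k (hk : k < Nat.find hex) => Nat.find_min hex hk
  have hdeg : p.natDegree ≠ 0 := by
    intro h
    rw [Polynomial.natDegree_eq_zero] at h
    obtain ⟨c, rfl⟩ := h
    have hc : c ≠ 0 := by
      rintro rfl
      exact hp0 (by simp)
    have h1 : evp b x (Polynomial.C c) = MvPolynomial.aeval b c := by simp [evp]
    rw [h1] at hp
    obtain ⟨h2, h3⟩ := hb c hc
    rcases hp with hp | hp
    · exact h2 hp
    · rw [h3] at hp; exact lt_irrefl _ hp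
  have hder0 : Polynomial.derivative p ≠ 0 := by
    intro h
    exact hdeg (Polynomial.natDegree_eq_zero_of_derivative_eq_zero h)
  have h1 := hmin (Polynomial.derivative p).natDegree (by
    rw [← hpn]; exact Polynomial.natDegree_derivative_lt hdeg)
  push Not at h1
  have h2 := h1 _ hder0 rfl
  exact ⟨p, hp, h2.1, le_antisymm h2.2 (evp_nonneg hb hx _)⟩

end

/-- The lattice of differentials of a divisorial valuation is spanned by the differentials of a
uniformiser and of a maximal family with algebraically independent residues. -/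
theorem can_lattice (O : DVal E) (hO : O.Divisorial) {ι : Type} [Fintype ι] (b : ι → E)
    (hb : ResIndep O b)
    (hmax : ∀ x, 0 ≤ O.ord x → ¬ ResIndep O fun o : Option ι => o.elim x b) (t : E)
    (ht : O.ord t = 1) (z : E) (hz : 0 ≤ O.ord z) :
    KaehlerDifferential.D ℂ E z ∈ Submodule.span O.ring
      (Set.range fun o : Option ι => KaehlerDifferential.D ℂ E (o.elim t b)) := by
  have ht0 : t ≠ 0 := by rintro rfl; simp at ht
  have htO : t ∈ O.ring := by change 0 ≤ O.ord t; rw [ht]; norm_num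
  set N' : Submodule O.ring (Ω[E⁄ℂ]) := Submodule.span O.ring
      (Set.range fun o : Option ι => KaehlerDifferential.D ℂ E (o.elim t b)) with hN'
  have hDt : KaehlerDifferential.D ℂ E t ∈ N' := Submodule.subset_span ⟨none, rfl⟩
  have hDb : ∀ i, KaehlerDifferential.D ℂ E (b i) ∈ N' := fun i =>
    Submodule.subset_span ⟨some i, rfl⟩
  refine can_nakayama O ⟨t, htO⟩ ht N' (diffs O) (can_fg O hO) ?_
    (Submodule.subset_span ⟨z, hz, rfl⟩)
  rintro _ ⟨x, hx, rfl⟩
  obtain ⟨p, hp, hd0, hd⟩ := exists_evp hb hx (hmax x hx)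
  set d := evp b x (Polynomial.derivative p) with hdd
  have h3 : 0 ≤ O.ord d⁻¹ := by rw [O.ord_inv, hd]; simp
  have h4 := evp_D hb hx N' hDb p
  have h5 : ∃ u ∈ N', ∃ v ∈ Submodule.span O.ring (diffs O),
      KaehlerDifferential.D ℂ E (evp b x p) = u + t • v := by
    by_cases h0 : evp b x p = 0
    · refine ⟨0, Submodule.zero_mem _, 0, Submodule.zero_mem _, ?_⟩
      rw [h0, map_zero, smul_zero, add_zero]
    · have h2 := hp.resolve_left h0
      have h6 : 0 ≤ O.ord (evp b x p / t) := by
        rw [O.ord_div h0 ht0]; omega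
      have h7 : evp b x p = t * (evp b x p / t) := by field_simp
      refine ⟨(evp b x p / t) • KaehlerDifferential.D ℂ E t, can_smul_mem _ h6 hDt,
        KaehlerDifferential.D ℂ E (evp b x p / t), Submodule.subset_span ⟨_, h6, rfl⟩, ?_⟩
      conv_lhs => rw [h7, Derivation.leibniz]
      rw [add_comm]
  obtain ⟨u, hu, v, hv, h6⟩ := h5
  refine ⟨d⁻¹ • (u - (KaehlerDifferential.D ℂ E (evp b x p) -
    d • KaehlerDifferential.D ℂ E x)), can_smul_mem _ h3 (Submodule.sub_mem _ hu h4),
    d⁻¹ • v, can_smul_mem _ h3 hv, ?_⟩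
  change KaehlerDifferential.D ℂ E x = _ + t • (d⁻¹ • v)
  rw [smul_comm t, ← smul_add, h6]
  have h7 : u - (u + t • v - d • KaehlerDifferential.D ℂ E x) + t • v =
      d • KaehlerDifferential.D ℂ E x := by abel
  rw [h7, smul_smul, inv_mul_cancel₀ hd0, one_smul]

end Pool.Agent.LibKC
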