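import Pool.Agent.LibKC.CANb

/-! THEOREM K, part C, block CAN (helper80): coordinates of a divisorial valuation, the order of a
multiple of a form. -/

set_option autoImplicit false

open scoped KaehlerDifferential
open Pool.Agent.LibGMM Pool.Agent.LibK

namespace Pool.Agent.LibKC

variable {E : Type} [Field E] [Algebra ℂ E]

theorem resIndep_zero (O : DVal E) (b : Fin 0 → E) : ResIndep O b := by
  intro P hP
  rw [MvPolynomial.eq_C_of_isEmpty P] at hP ⊢
  have hc : P.coeff 0 ≠ 0 := by
    intro h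
    rw [h, map_zero] at hP
    exact hP rfl
  rw [MvPolynomial.aeval_C]
  refine ⟨?_, O.ord_const _⟩
  rw [Ne, map_eq_zero_iff _ (algebraMap ℂ E).injective]
  exact hc

/-- Differentials over `E` from differentials over the ring of `O`. -/
theorem can_span_top {O : DVal E} {ι : Type} {x : ι → E}
    (hspan : ∀ z, 0 ≤ O.ord z → KaehlerDifferential.D ℂ E z ∈
      Submodule.span O.ring (Set.range fun i => KaehlerDifferential.D ℂ E (x i))) (z : E) :
    KaehlerDifferential.D ℂ E z ∈
      Submodule.span E (Set.range fun i => KaehlerDifferential.D ℂ E (x i)) := by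
  have h1 : ∀ z, 0 ≤ O.ord z → KaehlerDifferential.D ℂ E z ∈
      Submodule.span E (Set.range fun i => KaehlerDifferential.D ℂ E (x i)) := fun z hz =>
    Submodule.span_subset_span O.ring E _ (hspan z hz)
  rcases le_total 0 (O.ord z) with h | h
  · exact h1 z h
  · have h2 := h1 z⁻¹ (by rw [O.ord_inv]; omega)
    have h3 : KaehlerDifferential.D ℂ E z = KaehlerDifferential.D ℂ E (z⁻¹)⁻¹ := by
      rw [inv_inv]
    rw [h3, Derivation.leibniz_inv]
    exact Submodule.smul_mem _ _ h2

theorem can_exists_residues (O : DVal E) (hO : O.Divisorial) {κ : Type} [Fintype κ] (y : κ → E)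
    (hy : AlgebraicIndependent ℂ y) (hgen : IntermediateField.adjoin ℂ (Set.range y) = ⊤) :
    ∃ (m : ℕ) (b : Fin m → E), m + 1 = Fintype.card κ ∧ ResIndep O b := by
  classical
  have hex : ∃ m, ¬ ∃ b : Fin m → E, ResIndep O b := by
    refine ⟨Fintype.card κ, ?_⟩
    rintro ⟨b, hb⟩
    have h1 := hb.card_lt y hy hgen
    rw [Fintype.card_fin] at h1
    omega
  have hspec := Nat.find_spec hex
  have hmin := fun k (hk : k < Nat.find hex) => Nat.find_min hex hk
  have hne : Nat.find hex ≠ 0 := by
    intro h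
    rw [h] at hspec
    exact hspec ⟨Fin.elim0, resIndep_zero O _⟩
  obtain ⟨m, hm⟩ := Nat.exists_eq_succ_of_ne_zero hne
  obtain ⟨b, hb⟩ := not_not.1 (hmin m (by omega))
  refine ⟨m, b, ?_, hb⟩
  have h1 := hb.card_lt y hy hgen
  rw [Fintype.card_fin] at h1
  refine le_antisymm h1 ?_
  obtain ⟨t, ht⟩ := O.exists_ord_one
  have hmax : ∀ x, 0 ≤ O.ord x → ¬ ResIndep O fun o : Option (Fin m) => o.elim x b := by
    intro x _ h
    have ε : Fin (m + 1) ≃ Option (Fin m) := finSuccEquiv m
    rw [hm] at hspec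
    exact hspec ⟨_, h.reindex ε⟩
  have h2 := can_lattice O hO b hb hmax t ht
  have h3 : Submodule.span E (Set.range fun o : Option (Fin m) =>
      KaehlerDifferential.D ℂ E (o.elim t b)) = ⊤ := by
    rw [eq_top_iff, ← KaehlerDifferential.span_range_derivation, Submodule.span_le]
    rintro _ ⟨x, rfl⟩
    exact can_span_top h2 x
  have h4 : Module.finrank E (Ω[E⁄ℂ]) = Fintype.card κ := can_dimK y hy hgen
  have h5 := finrank_range_le_card (R := E) fun o : Option (Fin m) =>
      KaehlerDifferential.D ℂ E (o.elim t b)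
  unfold Set.finrank at h5
  rw [h3, finrank_top, h4, Fintype.card_option, Fintype.card_fin] at h5
  exact h5

theorem IsVol.smul {ι : Type} {ω : TopForm E} {g : E} {y : ι → E} (h : IsVol ω g y) (c : E) :
    IsVol (c • ω) (c * g) y := by
  obtain ⟨σ, hσ⟩ := h
  refine ⟨σ, fun D => ?_⟩
  rw [AlternatingMap.smul_apply, hσ, smul_eq_mul, mul_assoc]

/-- The structure of a divisorial valuation: good coordinates. -/
theorem can_structure (O : DVal E) (hO : O.Divisorial) {κ : Type} [Fintype κ] (y : κ → E)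
    (hy : AlgebraicIndependent ℂ y) (hgen : IntermediateField.adjoin ℂ (Set.range y) = ⊤)
    {ω : TopForm E} (hω : ω ≠ 0) :
    ∃ (x : κ → E) (g : E), IsVol ω g x ∧ (∀ i, 0 ≤ O.ord (x i)) ∧
      ∀ z, 0 ≤ O.ord z → KaehlerDifferential.D ℂ E z ∈
        Submodule.span O.ring (Set.range fun i => KaehlerDifferential.D ℂ E (x i)) := by
  classical
  obtain ⟨m, b, hm, hb⟩ := can_exists_residues O hO y hy hgen
  obtain ⟨t, ht⟩ := O.exists_ord_one
  have hmax : ∀ x, 0 ≤ O.ord x → ¬ ResIndep O fun o : Option (Fin m) => o.elim x b := by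
    intro x _ h
    have h1 := h.card_lt y hy hgen
    rw [Fintype.card_option, Fintype.card_fin] at h1
    omega
  have h2 := can_lattice O hO b hb hmax t ht
  have ε : κ ≃ Option (Fin m) := Fintype.equivOfCardEq (by
    rw [Fintype.card_option, Fintype.card_fin, hm])
  set x : κ → E := fun i => (ε i).elim t b with hx
  have hx0 : ∀ i, 0 ≤ O.ord (x i) := by
    intro i
    rw [hx]
    simp only
    rcases ε i with _ | j
    · change 0 ≤ O.ord t
      rw [ht]; norm_num
    · exact hb.nonneg j
  have hrange : (Set.range fun i => KaehlerDifferential.D ℂ E (x i)) =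
      Set.range fun o : Option (Fin m) => KaehlerDifferential.D ℂ E (o.elim t b) :=
    ε.surjective.range_comp fun o : Option (Fin m) => KaehlerDifferential.D ℂ E (o.elim t b)
  have hspan : ∀ z, 0 ≤ O.ord z → KaehlerDifferential.D ℂ E z ∈
      Submodule.span O.ring (Set.range fun i => KaehlerDifferential.D ℂ E (x i)) := by
    intro z hz
    rw [hrange]
    exact h2 z hz
  obtain ⟨ω₁, hω₁⟩ := can_exists_vol 1 y (can_dimK y hy hgen)
  have hω₁0 := can_vol_ne_zero one_ne_zero hy hgen hω₁
  obtain ⟨c, hc⟩ := can_exists_smul (can_finite y hy hgen) hω₁0 hω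
  have h3 : ∀ i, ∃ J : κ → E, ∑ j, J j • KaehlerDifferential.D ℂ E (x j) =
      KaehlerDifferential.D ℂ E (y i) := fun i =>
    (Submodule.mem_span_range_iff_exists_fun E).1 (can_span_top hspan (y i))
  choose J hJ using h3
  refine ⟨x, c * 1 * (Matrix.of J).det, ?_, hx0, hspan⟩
  rw [hc]
  exact (hω₁.smul c).change (Matrix.of J) fun i => (hJ i).symm

theorem can_canOrd_smul (O : DVal E) (hO : O.Divisorial) {κ : Type} [Fintype κ] (y : κ → E)
    (hy : AlgebraicIndependent ℂ y) (hgen : IntermediateField.adjoin ℂ (Set.range y) = ⊤)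
    {ω : TopForm E} (hω : ω ≠ 0) (c : Eˣ) :
    canOrd O ((c : E) • ω) = canOrd O ω + O.ord (c : E) := by
  obtain ⟨x, g, hv, hx, hspan⟩ := can_structure O hO y hy hgen hω
  rw [can_ord_of_vol hv hω O hx hspan,
    can_ord_of_vol (hv.smul (c : E)) (smul_ne_zero c.ne_zero hω) O hx hspan,
    O.ord_mul _ _ c.ne_zero (hv.ne_zero hω), add_comm]

end Pool.Agent.LibKC
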