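import Pool.Agent.LibK.Base
import Pool.Agent.LibGMM.CanRes
import Pool.Agent.LibGMM.CanOrd
import Pool.Agent.LibGMM.G7

/-!
THEOREM K, part C (torus). Definitions.

`K = L(t₁, …, t_r)`, `L = ℂ(z₀, z₁)`. Laurent polynomials over `L` are finitely supported functions
`F : (Fin r → ℤ) →₀ L`, `T.lau F = ∑ F u χ^u ∈ K`.
-/

set_option autoImplicit false

open Pool.Agent.LibGMM Pool.Agent.LibK

namespace Pool.Agent.LibKC

/-- `K = L(t₁, …, t_r)`, `L = ℂ(z₀, z₁)`. -/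
structure TData (L K : Type) [Field L] [Field K] [Algebra ℂ L] [Algebra ℂ K] [Algebra L K]
    [IsScalarTower ℂ L K] (r : ℕ) where
  z : Fin 2 → L
  plane : IsPlane (z 0) (z 1)
  t : Fin r → Kˣ
  indep : AlgebraicIndependent L fun k => (t k : K)
  gen : ∀ x : K, ∃ P Q : MvPolynomial (Fin r) L, Q ≠ 0 ∧
    x * MvPolynomial.aeval (fun k => (t k : K)) Q = MvPolynomial.aeval (fun k => (t k : K)) P

variable {L K : Type} [Field L] [Field K] [Algebra ℂ L] [Algebra ℂ K] [Algebra L K]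
  [IsScalarTower ℂ L K] {r : ℕ}

/-- The pairing of characters and one parameter subgroups. -/
def pair (u w : Fin r → ℤ) : ℤ := ∑ k, u k * w k

/-- The rational pairing. -/
def pairQ (u : Fin r → ℤ) (w : Fin r → ℚ) : ℚ := ∑ k, (u k : ℚ) * w k

/-- The character `χ^u = ∏ t_k ^ u_k`. -/
noncomputable def TData.chi (T : TData L K r) (u : Fin r → ℤ) : Kˣ := ∏ k, T.t k ^ u k

/-- Laurent polynomials, as elements of `K`. -/
noncomputable def TData.lau (T : TData L K r) : ((Fin r → ℤ) →₀ L) →ₗ[L] K :=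
  Finsupp.linearCombination L fun u => (T.chi u : K)

/-- `x` is a Laurent polynomial in `t₁, …, t_r` with coefficients in `L`. -/
def TData.IsLau (T : TData L K r) (x : K) : Prop := ∃ F, T.lau F = x

/-- `Q` is the monomial (Gauss) valuation with `Q = e q` on `L` and weights `w` on the characters:
`Q (∑ F u χ^u) = min (e q(F u) + ⟨u, w⟩)`. For `e = 0` it is trivial on `L`. -/
def TData.Gauss (T : TData L K r) (Q : DVal K) (q : DVal L) (e : ℕ) (w : Fin r → ℤ) : Prop :=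
  ∀ F : (Fin r → ℤ) →₀ L, F ≠ 0 →
    (∀ u ∈ F.support, Q.ord (T.lau F) ≤ (e : ℤ) * q.ord (F u) + pair u w) ∧
    ∃ u ∈ F.support, Q.ord (T.lau F) = (e : ℤ) * q.ord (F u) + pair u w

/-- `Q` is the valuation of a prime divisor of `Spec L[t₁^±, …, t_r^±]`: it is trivial on `L` and on
the characters, and its ring is a localisation of the ring of Laurent polynomials. -/
def TData.Free (T : TData L K r) (Q : DVal K) : Prop :=
  (∀ f : L, Q.ord (algebraMap L K f) = 0) ∧ (∀ u, Q.ord (T.chi u : K) = 0) ∧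
    ∀ x, 0 ≤ Q.ord x → ∃ F G : (Fin r → ℤ) →₀ L, G ≠ 0 ∧ Q.ord (T.lau G) = 0 ∧
      x = T.lau F / T.lau G

/-- The homogeneous coordinates of `X` are semi-invariant. -/
def TData.Stable (T : TData L K r) (X : NormalModel K) : Prop :=
  ∀ i : X.ι, ∃ (f : L) (u : Fin r → ℤ), (X.g i : K) = algebraMap L K f * (T.chi u : K)

/-- The form `dz₀ ∧ dz₁ ∧ dt₁ ∧ ⋯ ∧ dt_r / (t₁ ⋯ t_r)` (up to sign). -/
def TData.IsStd (T : TData L K r) (ω : TopForm K) : Prop :=
  ∃ e : Fin (dimK K) ≃ Fin 2 ⊕ Fin r, ∀ D : Fin (dimK K) → Derivation ℂ K K,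
    ω D = (∏ k, (T.t k : K))⁻¹ * Matrix.det fun i j =>
      D i (Sum.elim (fun a => algebraMap L K (T.z a)) (fun k => (T.t k : K)) (e j))

/-- The form `dz₀ ∧ dz₁` on `L` (up to sign). -/
def TData.IsStdL (T : TData L K r) (ω : TopForm L) : Prop :=
  ∃ e : Fin (dimK L) ≃ Fin 2, ∀ D : Fin (dimK L) → Derivation ℂ L L,
    ω D = Matrix.det fun i j => D i (T.z (e j))

/-- The ring `ℂ[z₀, z₁, t₁^±, …, t_r^±]`. -/
def TData.aff (T : TData L K r) : Subalgebra ℂ K :=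
  Algebra.adjoin ℂ ((Set.range fun a => algebraMap L K (T.z a)) ∪
    (Set.range fun k => (T.t k : K)) ∪ Set.range fun k => ((T.t k)⁻¹ : K))

/-- `Q` is a prime divisor of `Spec ℂ[z₀, z₁, t₁^±, …, t_r^±]`. -/
def TData.AffPrime (T : TData L K r) (Q : DVal K) : Prop :=
  (∀ a ∈ T.aff, 0 ≤ Q.ord a) ∧
    ∀ x, 0 ≤ Q.ord x → ∃ a ∈ T.aff, ∃ b ∈ T.aff, b ≠ 0 ∧ Q.ord b = 0 ∧ x = a / b

end Pool.Agent.LibKC
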