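import Pool.Agent.LibKC.Defs

/-! Auxiliary definitions for the blocks L, G, P, CAN of part C. -/

set_option autoImplicit false

open Pool.Agent.LibGMM Pool.Agent.LibK

namespace Pool.Agent.LibKC

/-- A valuation with values in `ℤ`, trivial on `ℂ`, not necessarily normalised or nontrivial. -/
structure PreVal (F : Type) [Field F] [Algebra ℂ F] where
  ord : F → ℤ
  ord_zero : ord 0 = 0
  ord_mul : ∀ a b, a ≠ 0 → b ≠ 0 → ord (a * b) = ord a + ord b
  ord_add : ∀ a b, a ≠ 0 → b ≠ 0 → a + b ≠ 0 → min (ord a) (ord b) ≤ ord (a + b)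
  ord_const : ∀ c : ℂ, ord (algebraMap ℂ F c) = 0

/-- The multiple `e ν` of a discrete valuation, `e ≥ 0`. -/
def scale {F : Type} [Field F] [Algebra ℂ F] (e : ℕ) (ν : DVal F) : PreVal F where
  ord x := e * ν.ord x
  ord_zero := by rw [ν.ord_zero, mul_zero]
  ord_mul a b ha hb := by rw [ν.ord_mul a b ha hb, mul_add]
  ord_add a b ha hb hab := by
    have h := ν.ord_add a b ha hb hab
    rcases min_le_iff.1 h with h1 | h1
    · exact min_le_iff.2 (Or.inl (mul_le_mul_of_nonneg_left h1 (Int.natCast_nonneg e)))
    · exact min_le_iff.2 (Or.inr (mul_le_mul_of_nonneg_left h1 (Int.natCast_nonneg e)))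
  ord_const c := by rw [ν.ord_const, mul_zero]

@[simp] theorem scale_ord {F : Type} [Field F] [Algebra ℂ F] (e : ℕ) (ν : DVal F) (x : F) :
    (scale e ν).ord x = e * ν.ord x := rfl

variable {L K : Type} [Field L] [Field K] [Algebra ℂ L] [Algebra ℂ K] [Algebra L K]
  [IsScalarTower ℂ L K] {r : ℕ}

variable (L) in
/-- The restriction of a discrete valuation of `K` to the subfield `L`. -/
def restr (v : DVal K) : PreVal L where
  ord x := v.ord (algebraMap L K x)
  ord_zero := by simp [v.ord_zero]
  ord_mul a b ha hb := by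
    rw [map_mul]
    exact v.ord_mul _ _ (fun h => ha ((map_eq_zero _).1 h)) (fun h => hb ((map_eq_zero _).1 h))
  ord_add a b ha hb hab := by
    rw [map_add]
    exact v.ord_add _ _ (fun h => ha ((map_eq_zero _).1 h)) (fun h => hb ((map_eq_zero _).1 h))
      (fun h => hab ((map_eq_zero (algebraMap L K)).1 (by rw [map_add, h])))
  ord_const c := by
    rw [← IsScalarTower.algebraMap_apply ℂ L K]
    exact v.ord_const c

@[simp] theorem restr_ord (v : DVal K) (x : L) : (restr L v).ord x = v.ord (algebraMap L K x) := rfl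

/-- The product of Laurent polynomials. -/
noncomputable def mulF (F G : (Fin r → ℤ) →₀ L) : (Fin r → ℤ) →₀ L :=
  F.sum fun a x => G.sum fun b y => Finsupp.single (a + b) (x * y)

open scoped Classical in
/-- The Gauss valuation of a Laurent polynomial: the smallest value of its terms, if the
coefficients have the values `N` and the variables the values `w`. -/
noncomputable def gv (N : PreVal L) (w : Fin r → ℤ) (F : (Fin r → ℤ) →₀ L) : ℤ :=
  if h : F.support.Nonempty then F.support.inf' h fun u => N.ord (F u) + pair u w else 0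

/-- `Q` is the Gauss valuation of `K` with values `N` on `L` and `w` on `t`. -/
def TData.GaussN (T : TData L K r) (Q : DVal K) (N : PreVal L) (w : Fin r → ℤ) : Prop :=
  ∀ F : (Fin r → ℤ) →₀ L, F ≠ 0 → Q.ord (T.lau F) = gv N w F

/-- The form `ω` is `g dy₁ ∧ … ∧ dyₙ`, up to the order of the factors. -/
def IsVol {E : Type} [Field E] [Algebra ℂ E] {ι : Type} (ω : TopForm E) (g : E) (y : ι → E) : Prop :=
  ∃ σ : Fin (dimK E) ≃ ι, ∀ D : Fin (dimK E) → Derivation ℂ E E,
    ω D = g * Matrix.det fun i j => D i (y (σ j))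

theorem pair_zero (w : Fin r → ℤ) : pair 0 w = 0 := by simp [pair]

theorem pair_add (u v w : Fin r → ℤ) : pair (u + v) w = pair u w + pair v w := by
  simp [pair, add_mul, Finset.sum_add_distrib]

theorem pair_neg (u w : Fin r → ℤ) : pair (-u) w = - pair u w := by
  simp [pair]

end Pool.Agent.LibKC
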